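import Mathlib

namespace Pool.Agent.Results.MP_e3cc28_al.NotAll

/-- Property (*): for all Sylow 2-subgroups `P, Q` of `G` there is a Sylow 2-subgroup `S` of the
subgroup generated by `P` and `Q` such that `P ∩ Q` is contained in `S` and normal in `S`. -/
def Star (G : Type) [Group G] : Prop :=
  ∀ P Q : Sylow 2 G, ∃ S : Sylow 2 ↥((P : Subgroup G) ⊔ (Q : Subgroup G)),
    ((P : Subgroup G) ⊓ (Q : Subgroup G)).subgroupOf ((P : Subgroup G) ⊔ (Q : Subgroup G))
        ≤ (S : Subgroup ↥((P : Subgroup G) ⊔ (Q : Subgroup G))) ∧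
      ((((P : Subgroup G) ⊓ (Q : Subgroup G)).subgroupOf
        ((P : Subgroup G) ⊔ (Q : Subgroup G))).subgroupOf
          (S : Subgroup ↥((P : Subgroup G) ⊔ (Q : Subgroup G)))).Normal

abbrev G5 := Equiv.Perm (Fin 5)

/-- stabiliser of the point `a` and of the block system given by the involution `t`. -/
def stab (a : Fin 5) (t : G5) : Subgroup G5 where
  carrier := {g | g a = a ∧ g * t = t * g}
  one_mem' := by simp
  mul_mem' := by
    rintro g h ⟨h1, h2⟩ ⟨h3, h4⟩
    refine ⟨by simp [h3, h1], ?_⟩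
    rw [mul_assoc, h4, ← mul_assoc, h2, mul_assoc]
  inv_mem' := by
    rintro g ⟨h1, h2⟩
    refine ⟨?_, ?_⟩
    · rw [Equiv.Perm.inv_eq_iff_eq]; exact h1.symm
    · calc g⁻¹ * t = g⁻¹ * (t * g) * g⁻¹ := by group
        _ = g⁻¹ * (g * t) * g⁻¹ := by rw [h2]
        _ = t * g⁻¹ := by group

def cen (t : G5) : Subgroup G5 where
  carrier := {g | g * t = t * g}
  one_mem' := by simp
  mul_mem' := by
    rintro g h h2 h4
    simp only [Set.mem_setOf_eq] at *
    rw [mul_assoc, h4, ← mul_assoc, h2, mul_assoc]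
  inv_mem' := by
    rintro g h2
    simp only [Set.mem_setOf_eq] at *
    calc g⁻¹ * t = g⁻¹ * (t * g) * g⁻¹ := by group
        _ = g⁻¹ * (g * t) * g⁻¹ := by rw [h2]
        _ = t * g⁻¹ := by group

theorem card_stab (a : Fin 5) (t : G5) :
    Nat.card (stab a t) = (Finset.univ.filter (fun g : G5 => g a = a ∧ g * t = t * g)).card := by
  rw [← Fintype.card_subtype, ← Nat.card_eq_fintype_card]
  rfl

theorem card_cen (t : G5) :
    Nat.card (cen t) = (Finset.univ.filter (fun g : G5 => g * t = t * g)).card := by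
  rw [← Fintype.card_subtype, ← Nat.card_eq_fintype_card]
  rfl

def t1 : G5 := Equiv.swap 0 1 * Equiv.swap 2 3
def t2 : G5 := Equiv.swap 0 1 * Equiv.swap 2 4
def s0 : G5 := Equiv.swap 0 1

theorem c1 : Nat.card (stab 4 t1) = 8 := by rw [card_stab]; decide +kernel
theorem c2 : Nat.card (stab 3 t2) = 8 := by rw [card_stab]; decide +kernel
theorem c3 : Nat.card (cen s0) = 12 := by rw [card_cen]; decide +kernel

theorem inter : ∀ g : G5, (g 4 = 4 ∧ g * t1 = t1 * g) → (g 3 = 3 ∧ g * t2 = t2 * g) →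
    g = 1 ∨ g = s0 := by decide +kernel

theorem fac : (Nat.card G5).factorization 2 = 3 := by
  have : Nat.card G5 = 120 := by
    rw [Nat.card_eq_fintype_card, Fintype.card_perm]; rfl
  rw [this]
  have h : (120 : ℕ) = 2 ^ 3 * 15 := by norm_num
  rw [h, Nat.factorization_mul (by norm_num) (by norm_num)]
  rw [Nat.Prime.factorization_pow Nat.prime_two]
  simp [Nat.factorization_eq_zero_of_not_dvd]

theorem result : ¬ Star (Equiv.Perm (Fin 5)) := by
  intro h
  have : Fact (Nat.Prime 2) := ⟨Nat.prime_two⟩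
  let P : Sylow 2 G5 := Sylow.ofCard (stab 4 t1) (by rw [c1, fac]; norm_num)
  let Q : Sylow 2 G5 := Sylow.ofCard (stab 3 t2) (by rw [c2, fac]; norm_num)
  have hP : (P : Subgroup G5) = stab 4 t1 := rfl
  have hQ : (Q : Subgroup G5) = stab 3 t2 := rfl
  let K : Subgroup G5 := (P : Subgroup G5) ⊔ (Q : Subgroup G5)
  obtain ⟨S, hle, hn⟩ : ∃ S : Sylow 2 K,
      ((P : Subgroup G5) ⊓ (Q : Subgroup G5)).subgroupOf K ≤ (S : Subgroup K) ∧
      ((((P : Subgroup G5) ⊓ (Q : Subgroup G5)).subgroupOf K).subgroupOf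
          (S : Subgroup K)).Normal := h P Q
  have hsP : s0 ∈ (P : Subgroup G5) := by
    rw [hP]; exact (by decide +kernel : s0 4 = 4 ∧ s0 * t1 = t1 * s0)
  have hsQ : s0 ∈ (Q : Subgroup G5) := by
    rw [hQ]; exact (by decide +kernel : s0 3 = 3 ∧ s0 * t2 = t2 * s0)
  have hsK : s0 ∈ K := (le_sup_left : (P : Subgroup G5) ≤ K) hsP
  have hsI : (⟨s0, hsK⟩ : K) ∈ ((P : Subgroup G5) ⊓ (Q : Subgroup G5)).subgroupOf K :=
    ⟨hsP, hsQ⟩
  have hmap : (S : Subgroup K).map K.subtype ≤ cen s0 := by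
    rintro _ ⟨g, hg, rfl⟩
    have h1 := hn.conj_mem ⟨⟨s0, hsK⟩, hle hsI⟩ hsI ⟨g, hg⟩
    have h2 : (g : G5) * s0 * (g : G5)⁻¹ ∈ (P : Subgroup G5) ⊓ (Q : Subgroup G5) := h1
    rcases inter _ h2.1 h2.2 with h3 | h3
    · exfalso
      have : s0 = 1 := by
        calc s0 = (g : G5)⁻¹ * ((g : G5) * s0 * (g : G5)⁻¹) * g := by group
          _ = 1 := by rw [h3]; group
      exact absurd this (by decide +kernel)
    · show (g : G5) * s0 = s0 * g
      calc (g : G5) * s0 = ((g : G5) * s0 * (g : G5)⁻¹) * g := by group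
        _ = s0 * g := by rw [h3]
  have hd : Nat.card (S : Subgroup K) ∣ 12 := by
    rw [← c3, ← Subgroup.card_map_of_injective (K := (S : Subgroup K)) K.subtype_injective]
    exact Subgroup.card_dvd_of_le hmap
  have h8 : 8 ∣ Nat.card K := by
    rw [← c1, ← hP]; exact Subgroup.card_dvd_of_le le_sup_left
  have hS := Sylow.card_eq_multiplicity S
  have h3 : 3 ≤ (Nat.card K).factorization 2 := by
    rw [← Nat.Prime.pow_dvd_iff_le_factorization Nat.prime_two Nat.card_pos.ne']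
    exact h8
  have : 8 ∣ Nat.card (S : Subgroup K) := by
    rw [hS]; exact pow_dvd_pow 2 h3
  exact absurd (this.trans hd) (by norm_num)

end Pool.Agent.Results.MP_e3cc28_al.NotAll
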